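import Pool.Agent.W868.FI.Stms

/-! Project FI, part FREE: almost every point is free. -/

open MeasureTheory Set

namespace Pool.Agent.W193.FI

open Pool.Agent.W868.FI

theorem rho_lt {X : Type} [MeasurableSpace X] (μ : Measure X) [IsProbabilityMeasure μ]
    (E : Set X) (hE : MeasurableSet E) (h1 : 0 < μ E) (h2 : 0 < μ Eᶜ) :
    μ E ^ 2 + μ Eᶜ ^ 2 < 1 := by
  have hs : μ E + μ Eᶜ = 1 := prob_add_prob_compl hE
  have hfin : μ E ^ 2 + μ Eᶜ ^ 2 ≠ ⊤ :=
    ENNReal.add_ne_top.2 ⟨ENNReal.pow_ne_top (measure_ne_top μ _),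
      ENNReal.pow_ne_top (measure_ne_top μ _)⟩
  calc μ E ^ 2 + μ Eᶜ ^ 2 < μ E ^ 2 + μ Eᶜ ^ 2 + 2 * (μ E * μ Eᶜ) :=
        ENNReal.lt_add_right hfin (by
          refine mul_ne_zero two_ne_zero (mul_ne_zero h1.ne' h2.ne'))
    _ = (μ E + μ Eᶜ) ^ 2 := by ring
    _ = 1 := by rw [hs, one_pow]

theorem exseq {Γ : Type} [Group Γ] [Infinite Γ] (γ : Γ) : ∃ δ : ℕ → Γ, ∀ m n, m < n →
    δ n ≠ δ m ∧ δ n ≠ δ m * γ ∧ δ n ≠ δ m * γ⁻¹ := by
  classical
  obtain ⟨δ, -, h⟩ := exists_seq_of_forall_finset_exists (fun _ : Γ => True)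
    (fun x y => y ≠ x ∧ y ≠ x * γ ∧ y ≠ x * γ⁻¹) (by
      intro s _
      obtain ⟨y, hy⟩ := Infinite.exists_notMem_finset
        (s ∪ s.image (fun x => x * γ) ∪ s.image (fun x => x * γ⁻¹))
      simp only [Finset.mem_union, Finset.mem_image, not_or, not_exists, not_and] at hy
      refine ⟨y, trivial, fun x hx => ⟨?_, ?_, ?_⟩⟩
      · rintro rfl; exact hy.1.1 hx
      · intro h; exact hy.1.2 x hx h.symm
      · intro h; exact hy.2 x hx h.symm)
  exact ⟨δ, h⟩

theorem jinj {Γ : Type} [Group Γ] (γ : Γ) (hγ : γ ≠ 1) (δ : ℕ → Γ) (h : ∀ m n, m < n →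
    δ n ≠ δ m ∧ δ n ≠ δ m * γ ∧ δ n ≠ δ m * γ⁻¹) (n : ℕ) :
    Function.Injective (fun p : Fin n × Bool => if p.2 then δ p.1 * γ else δ p.1) := by
  have key : ∀ (a b : ℕ) (s t : Bool), a < b →
      (if t then δ b * γ else δ b) ≠ (if s then δ a * γ else δ a) := by
    intro a b s t hab heq
    obtain ⟨h1, h2, h3⟩ := h a b hab
    cases s <;> cases t <;> simp at heq
    · exact h1 heq
    · exact h3 (by rw [← heq, mul_inv_cancel_right])
    · exact h2 heq
    · exact h1 heq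
  rintro ⟨a, s⟩ ⟨b, t⟩ heq
  simp only at heq
  rcases lt_trichotomy (a : ℕ) (b : ℕ) with hab | hab | hab
  · exact absurd heq.symm (key a b s t hab)
  · have hab' : a = b := Fin.ext hab
    subst hab'
    cases s <;> cases t
    · rfl
    · simp at heq
      exact absurd heq hγ
    · simp at heq
      exact absurd heq hγ
    · rfl
  · exact absurd heq (key b a t s hab)

theorem fixed_null {Γ X : Type} [Group Γ] [Countable Γ] [Infinite Γ] [MeasurableSpace X]
    (μ : Measure X) [IsProbabilityMeasure μ] (E : Set X) (hE : MeasurableSet E) (h1 : 0 < μ E)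
    (h2 : 0 < μ Eᶜ) (γ : Γ) (hγ : γ ≠ 1) : iid Γ μ {x | sh γ x = x} = 0 := by
  classical
  obtain ⟨δ, hδ⟩ := exseq γ
  have key : ∀ n : ℕ, iid Γ μ {x | sh γ x = x} ≤ (μ E ^ 2 + μ Eᶜ ^ 2) ^ n := by
    intro n
    let Es : Bool → Set X := fun b => if b then E else Eᶜ
    have hEs : ∀ b, MeasurableSet (Es b) := by
      intro b; cases b
      · exact hE.compl
      · exact hE
    let j : Fin n × Bool → Γ := fun p => if p.2 then δ p.1 * γ else δ p.1
    have hj : Function.Injective j := jinj γ hγ δ hδ n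
    let t : (Fin n → Bool) → Γ → Set X := fun s =>
      Function.extend j (fun p => Es (s p.1)) (fun _ => univ)
    have ht : ∀ s p, t s (j p) = Es (s p.1) := fun s p => hj.extend_apply _ _ _
    let J : Finset Γ := Finset.univ.image j
    have hbox : ∀ s, iid Γ μ (Set.pi (J : Set Γ) (t s)) = ∏ i, μ (Es (s i)) ^ 2 := by
      intro s
      unfold iid
      rw [Measure.infinitePi_pi]
      · rw [Finset.prod_image (fun a _ b _ hab => hj hab), Fintype.prod_prod_type]
        refine Finset.prod_congr rfl fun i _ => ?_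
        rw [Fintype.prod_bool, ht, ht, sq]
      · intro g hg
        obtain ⟨p, _, rfl⟩ := Finset.mem_image.1 hg
        rw [ht]
        exact hEs _
    have hsub : {x : Γ → X | sh γ x = x} ⊆ ⋃ s : Fin n → Bool, Set.pi (J : Set Γ) (t s) := by
      intro x hx
      refine mem_iUnion.2 ⟨fun i => decide (x (δ i) ∈ E), ?_⟩
      intro g hg
      obtain ⟨p, _, rfl⟩ := Finset.mem_image.1 (Finset.mem_coe.1 hg)
      have hxs := ht (fun i : Fin n => decide (x (δ i) ∈ E)) p
      refine (Set.ext_iff.1 hxs (x (j p))).2 ?_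
      have hxp : x (j p) = x (δ p.1) := by
        rcases p with ⟨i, b⟩
        cases b
        · rfl
        · have := congrFun hx (δ i)
          exact this
      rw [hxp]
      by_cases hm : x (δ p.1) ∈ E
      · simp [Es, hm]
      · simp [Es, hm]
    calc iid Γ μ {x | sh γ x = x}
        ≤ iid Γ μ (⋃ s : Fin n → Bool, Set.pi (J : Set Γ) (t s)) := measure_mono hsub
      _ ≤ ∑ s : Fin n → Bool, iid Γ μ (Set.pi (J : Set Γ) (t s)) := measure_iUnion_fintype_le _ _
      _ = ∑ s : Fin n → Bool, ∏ i, μ (Es (s i)) ^ 2 := Finset.sum_congr rfl fun s _ => hbox s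
      _ = ∏ i : Fin n, ∑ b : Bool, μ (Es b) ^ 2 := by
          rw [Finset.prod_univ_sum, Fintype.piFinset_univ]
      _ = (μ E ^ 2 + μ Eᶜ ^ 2) ^ n := by
          simp [Es]
  have hlim : Filter.Tendsto (fun n : ℕ => (μ E ^ 2 + μ Eᶜ ^ 2) ^ n) Filter.atTop (nhds 0) :=
    ENNReal.tendsto_pow_atTop_nhds_zero_of_lt_one (rho_lt μ E hE h1 h2)
  exact le_antisymm (ge_of_tendsto' hlim key) zero_le

theorem free : S_FREE := by
  intro Γ X _ _ _ _ μ _ E hE h1 h2
  rw [ae_all_iff]
  intro γ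
  by_cases hγ : γ = 1
  · exact Filter.Eventually.of_forall fun x h => absurd hγ h
  · have h3 : ∀ᵐ x ∂(iid Γ μ), ¬ (sh γ x = x) := by
      rw [ae_iff]
      simpa using fixed_null μ E hE h1 h2 γ hγ
    filter_upwards [h3] with x hx _
    exact hx

end Pool.Agent.W193.FI
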